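import Mathlib

namespace Pool.Agent.Results.MP_1706f7_co.Zero
open Filter Topology

/-- the block of length `n` of `x` starting at position `i` -/
def blk (x : ℕ → Bool) (i n : ℕ) : List Bool := (List.range n).map (fun j => x (i + j))
/-- the set of factors of length `n` -/
def L (x : ℕ → Bool) (n : ℕ) : Set (List Bool) := {w | ∃ i, w = blk x i n}
/-- the abelian closure -/
def AbCl (x : ℕ → Bool) : Set (ℕ → Bool) :=
  {y | ∀ n, ∀ v ∈ L y n, ∃ w ∈ L x n, v.count true = w.count true}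
/-- blocks of length `n` occurring in some element of `X` -/
def LX (X : Set (ℕ → Bool)) (n : ℕ) : Set (List Bool) := {w | ∃ y ∈ X, w ∈ L y n}

/-- slope -/
noncomputable def al : ℝ := √2 / 2
/-- the witness: a mechanical word interleaved with zeros -/
noncomputable def x (k : ℕ) : Bool :=
  decide (k % 2 = 0 ∧ ⌊((k / 2 + 1 : ℕ) : ℝ) * al⌋ = ⌊((k / 2 : ℕ) : ℝ) * al⌋ + 1)

lemma al_lo : 0.707 < al := by
  have : (1.414 : ℝ) < √2 := Real.lt_sqrt_of_sq_lt (by norm_num)
  unfold al; linarith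
lemma al_hi : al < 0.708 := by
  have : √2 < (1.416 : ℝ) := (Real.sqrt_lt' (by norm_num)).2 (by norm_num)
  unfold al; linarith
lemma al_irr : Irrational al := by
  have := irrational_sqrt_two.div_natCast (m := 2) (by norm_num)
  simpa [al] using this

lemma cnt_succ (y : ℕ → Bool) (i n : ℕ) : ((blk y i (n + 1)).count true : ℤ) =
    (blk y i n).count true + if y (i + n) = true then 1 else 0 := by
  unfold blk
  rw [List.range_succ, List.map_append, List.count_append]
  cases h : y (i + n) <;> simp [h]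

lemma cnt_add (y : ℕ → Bool) (i n m : ℕ) : ((blk y i (n + m)).count true : ℤ) =
    (blk y i n).count true + (blk y (i + n) m).count true := by
  induction m with
  | zero => simp [blk]
  | succ m ih => rw [← add_assoc, cnt_succ, cnt_succ, ih, add_assoc i n m]; ring

lemma step (t : ℕ) : (if x (2 * t) = true then 1 else 0 : ℤ) =
    ⌊((t + 1 : ℕ) : ℝ) * al⌋ - ⌊(t : ℝ) * al⌋ := by
  have h1 : ⌊(t : ℝ) * al⌋ ≤ ⌊((t + 1 : ℕ) : ℝ) * al⌋ :=
    Int.floor_le_floor (by push_cast; nlinarith [al_lo])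
  have h2 : ⌊((t + 1 : ℕ) : ℝ) * al⌋ ≤ ⌊(t : ℝ) * al⌋ + 1 := by
    rw [← Int.floor_add_one]; exact Int.floor_le_floor (by push_cast; nlinarith [al_hi])
  unfold x
  rw [show 2 * t / 2 = t by omega]
  simp only [decide_eq_true_eq, Nat.mul_mod_right, true_and]
  split_ifs <;> omega

lemma odd (t : ℕ) : x (2 * t + 1) = false := by
  unfold x; simp

lemma cnt_x (j n : ℕ) : ((blk x j (2 * n)).count true : ℤ) =
    ⌊(((j + 1) / 2 + n : ℕ) : ℝ) * al⌋ - ⌊(((j + 1) / 2 : ℕ) : ℝ) * al⌋ := by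
  induction n with
  | zero => simp [blk]
  | succ n ih =>
    rw [mul_add, mul_one, cnt_succ, cnt_succ, ih]
    have := step ((j + 1) / 2 + n)
    rw [← add_assoc ((j + 1) / 2) n 1]
    rcases Nat.even_or_odd' j with ⟨c, rfl | rfl⟩
    · rw [show 2 * c + (2 * n + 1) = 2 * (c + n) + 1 by ring, odd,
        show 2 * c + 2 * n = 2 * ((2 * c + 1) / 2 + n) by omega, this]
      simp
    · rw [show 2 * c + 1 + 2 * n = 2 * (c + n) + 1 by ring, odd,
        show 2 * c + 1 + (2 * n + 1) = 2 * ((2 * c + 1 + 1) / 2 + n) by omega, this]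
      simp

lemma synd (ε : ℝ) (hε : 0 < ε) : ∃ R : ℕ, ∀ i : ℕ, ∃ J, i ≤ J ∧ J ≤ i + R ∧
    ∃ z : ℤ, (z : ℝ) ≤ J * al ∧ J * al < z + ε := by
  obtain ⟨n, hn⟩ := exists_nat_one_div_lt hε
  obtain ⟨q, hq, -, h⟩ := Real.exists_nat_abs_mul_sub_round_le al (n := n + 1) (by omega)
  set j := round ((q : ℝ) * al)
  set δ := (q : ℝ) * al - j with hδ
  have hlt : |δ| < ε := by
    refine h.trans_lt (lt_of_le_of_lt ?_ hn)
    apply one_div_le_one_div_of_le (by positivity); push_cast; linarith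
  have hne : δ ≠ 0 := sub_ne_zero.2 ((al_irr.natCast_mul hq.ne').ne_int j)
  have hp : 0 < |δ| := abs_pos.2 hne
  refine ⟨⌈1 / |δ|⌉₊ * q, fun i => ?_⟩
  set θ := (i : ℝ) * al
  have key : ∃ r : ℕ, r ≤ ⌈1 / |δ|⌉₊ ∧ ∃ z : ℤ, (z : ℝ) ≤ θ + r * δ ∧ θ + r * δ < z + |δ| := by
    rcases lt_or_gt_of_ne hne with hn' | hp'
    · rw [abs_of_neg hn'] at *
      have f0 := Int.floor_le θ
      have f1 := Int.lt_floor_add_one θ
      have a0 : 0 ≤ (θ - ⌊θ⌋) / -δ := div_nonneg (by linarith) hp.le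
      refine ⟨⌊(θ - ⌊θ⌋) / -δ⌋₊, (Nat.floor_le_ceil _).trans (Nat.ceil_mono ?_), ⌊θ⌋, ?_, ?_⟩
      · exact div_le_div_of_nonneg_right (by linarith) hp.le
      · have := (le_div_iff₀ hp).1 (Nat.floor_le a0); linarith
      · have := (div_lt_iff₀ hp).1 (Nat.lt_floor_add_one ((θ - ⌊θ⌋) / -δ)); linarith
    · rw [abs_of_pos hp'] at *
      have f0 := Int.le_ceil θ
      have f1 := Int.ceil_lt_add_one θ
      have a0 : 0 ≤ (⌈θ⌉ - θ) / δ := div_nonneg (by linarith) hp.le
      refine ⟨⌈(⌈θ⌉ - θ) / δ⌉₊, Nat.ceil_mono ?_, ⌈θ⌉, ?_, ?_⟩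
      · exact div_le_div_of_nonneg_right (by linarith) hp.le
      · have := (div_le_iff₀ hp).1 (Nat.le_ceil ((⌈θ⌉ - θ) / δ)); linarith
      · have h3 := mul_lt_mul_of_pos_right (Nat.ceil_lt_add_one a0) hp
        rw [add_mul, div_mul_cancel₀ _ hne] at h3; linarith
  obtain ⟨r, hr, z, h1, h2⟩ := key
  have e : ((i + r * q : ℕ) : ℝ) * al = θ + r * δ + r * j := by rw [hδ]; push_cast; ring
  refine ⟨i + r * q, by omega, by have := Nat.mul_le_mul_right q hr; omega, z + r * j, ?_, ?_⟩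
  · rw [e]; push_cast; linarith
  · rw [e]; push_cast; linarith

lemma urec (n : ℕ) (w : List Bool) (hw : w ∈ L x n) :
    ∃ R, ∀ i, ∃ j, i ≤ j ∧ j ≤ i + R ∧ w = blk x j n := by
  obtain ⟨p, rfl⟩ := hw
  obtain ⟨t0, -, ht0⟩ := Finset.exists_max_image (Finset.range (p + n + 2))
    (fun t => Int.fract ((t : ℝ) * al)) ⟨0, by simp⟩
  obtain ⟨R, hR⟩ := synd (1 - Int.fract ((t0 : ℝ) * al)) (by linarith [Int.fract_lt_one (t0 * al)])
  refine ⟨2 * R + p + 1, fun i => ?_⟩
  obtain ⟨J, h1, h2, z, h3, h4⟩ := hR ((i + 1) / 2)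
  have fl : ∀ t < p + n + 2, ⌊((J + t : ℕ) : ℝ) * al⌋ = ⌊(t : ℝ) * al⌋ + z := by
    intro t ht
    have a := ht0 t (Finset.mem_range.2 ht)
    have b := Int.floor_add_fract ((t : ℝ) * al)
    have c := Int.fract_nonneg ((t : ℝ) * al)
    rw [Int.floor_eq_iff]; push_cast
    constructor <;> linarith
  refine ⟨2 * J + p, by omega, by omega, ?_⟩
  unfold blk
  apply List.map_congr_left
  intro k hk
  have hk' := List.mem_range.1 hk
  unfold x
  rw [show (2 * J + p + k) / 2 = J + (p + k) / 2 by omega, add_assoc J, fl _ (by omega),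
    fl _ (by omega), show (2 * J + p + k) % 2 = (p + k) % 2 by omega, decide_eq_decide]
  omega

lemma aper : ¬ ∃ p, 0 < p ∧ ∃ K, ∀ k, K ≤ k → x (k + p) = x k := by
  rintro ⟨p, hp, K, h⟩
  have h2 : ∀ k, K ≤ k → x (k + 2 * p) = x k := fun k hk => by
    rw [two_mul, ← add_assoc, h _ (by omega), h _ hk]
  set c : ℤ := (((blk x (2 * K) (2 * p)).count true : ℕ) : ℤ) with hc
  have sh : ∀ m, ((blk x (2 * K + 2 * (m * p)) (2 * p)).count true : ℤ) = c := by
    intro m
    induction m with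
    | zero => simp [hc]
    | succ m ih =>
      rw [← ih]
      congr 2
      unfold blk
      apply List.map_congr_left
      intro k _
      rw [← h2 (2 * K + 2 * (m * p) + k) (by omega)]; congr 1; ring
  have tot : ∀ m, ((blk x (2 * K) (2 * (m * p))).count true : ℤ) = m * c := by
    intro m
    induction m with
    | zero => simp [blk]
    | succ m ih => rw [add_mul, one_mul, mul_add, cnt_add, ih, sh]; push_cast; ring
  have hne : (p : ℝ) * al - c ≠ 0 := sub_ne_zero.2 ((al_irr.natCast_mul hp.ne').ne_int c)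
  obtain ⟨m, hm⟩ := exists_nat_gt (1 / |(p : ℝ) * al - c|)
  rw [div_lt_iff₀ (abs_pos.2 hne)] at hm
  have e := cnt_x (2 * K) (m * p)
  rw [tot] at e
  have e' : (m : ℝ) * c = ⌊(((2 * K + 1) / 2 + m * p : ℕ) : ℝ) * al⌋ -
      ⌊(((2 * K + 1) / 2 : ℕ) : ℝ) * al⌋ := by exact_mod_cast e
  generalize (2 * K + 1) / 2 = K' at e'
  have a1 := Int.floor_le (((K' + m * p : ℕ) : ℝ) * al)
  have a2 := Int.lt_floor_add_one (((K' + m * p : ℕ) : ℝ) * al)
  have a3 := Int.floor_le ((K' : ℝ) * al)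
  have a4 := Int.lt_floor_add_one ((K' : ℝ) * al)
  have a5 : ((K' + m * p : ℕ) : ℝ) * al = K' * al + m * (p * al) := by push_cast; ring
  have : |(m : ℝ) * (p * al - c)| < 1 := by rw [abs_lt]; constructor <;> linarith
  rw [abs_mul, Nat.abs_cast] at this
  linarith

lemma fin_L (S : Set (List Bool)) (n : ℕ) (h : ∀ w ∈ S, w.length = n) : S.Finite :=
  (List.finite_length_eq _ n).subset h

lemma not_sturm : (L x 3).ncard ≠ 3 + 1 := by
  have f : ∀ (k : ℕ) (z : ℤ), (z : ℝ) ≤ k * 0.707 → (k : ℝ) * 0.708 < z + 1 →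
      ⌊(k : ℝ) * al⌋ = z := by
    intro k z h1 h2
    have : (0:ℝ) ≤ k := Nat.cast_nonneg k
    rw [Int.floor_eq_iff]; constructor <;> nlinarith [al_lo, al_hi]
  have f0 := f 0 0 (by norm_num) (by norm_num)
  have f1 := f 1 0 (by norm_num) (by norm_num)
  have f2 := f 2 1 (by norm_num) (by norm_num)
  have f3 := f 3 2 (by norm_num) (by norm_num)
  have f4 := f 4 2 (by norm_num) (by norm_num)
  have x0 : x 0 = false := by have := step 0; rw [f0, f1] at this; simpa using this
  have x2 : x 2 = true := by have := step 1; rw [f2, f1] at this; simpa using this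
  have x4 : x 4 = true := by have := step 2; rw [f2, f3] at this; simpa using this
  have x6 : x 6 = false := by have := step 3; rw [f4, f3] at this; simpa using this
  have x1 : x 1 = false := odd 0
  have x3 : x 3 = false := odd 1
  have x5 : x 5 = false := odd 2
  have x7 : x 7 = false := odd 3
  have sub : ((({[false, false, true], [false, true, false], [true, false, true],
      [true, false, false], [false, false, false]} : Finset (List Bool))) : Set (List Bool)) ⊆
      L x 3 := by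
    intro w hw
    simp only [Finset.coe_insert, Finset.coe_singleton, Set.mem_insert_iff,
      Set.mem_singleton_iff] at hw
    rcases hw with rfl | rfl | rfl | rfl | rfl
    · exact ⟨0, by simp [blk, List.range_succ, *]⟩
    · exact ⟨1, by simp [blk, List.range_succ, *]⟩
    · exact ⟨2, by simp [blk, List.range_succ, *]⟩
    · exact ⟨4, by simp [blk, List.range_succ, *]⟩
    · exact ⟨5, by simp [blk, List.range_succ, *]⟩
  have := Set.ncard_le_ncard sub (fin_L _ 3 (by rintro w ⟨i, rfl⟩; simp [blk]))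
  rw [Set.ncard_coe_finset] at this
  have c : ({[false, false, true], [false, true, false], [true, false, true],
      [true, false, false], [false, false, false]} : Finset (List Bool)).card = 5 := by decide
  omega

/-- reconstruction of the counting function from four parameters -/
noncomputable def G (q : (ℕ × ℕ) × ℕ × ℕ) (k : ℕ) : ℤ :=
  if k % 2 = 0 then q.1.2 + ⌈((k : ℝ) - q.1.1) * (al / 2)⌉ else q.2.2 + ⌈((k : ℝ) - q.2.1) * (al / 2)⌉

lemma card_le (n : ℕ) : (LX (AbCl x) n).ncard ≤ (n + 2) ^ 4 := by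
  classical
  set Q := (Finset.range (n + 2) ×ˢ Finset.range (n + 2)) ×ˢ
    (Finset.range (n + 2) ×ˢ Finset.range (n + 2)) with hQ
  have : LX (AbCl x) n ⊆ (Q.image (fun q =>
      (List.range n).map (fun k => decide (G q (k + 1) ≠ G q k))) : Finset _) := by
    rintro w ⟨y, hy, i, rfl⟩
    set Y : ℕ → ℕ := fun k => (blk y i k).count true with hY
    have bal : ∀ a m : ℕ, |((Y (a + 2 * m) : ℝ) - ((a + 2 * m : ℕ) : ℝ) * (al / 2)) -
        (Y a - a * (al / 2))| < 1 := by
      intro a m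
      obtain ⟨_, ⟨j, rfl⟩, e⟩ := hy (2 * m) _ ⟨i + a, rfl⟩
      have e1 := cnt_add y i a (2 * m)
      rw [e, cnt_x] at e1
      have e2 : (Y (a + 2 * m) : ℝ) = Y a + (⌊(((j + 1) / 2 + m : ℕ) : ℝ) * al⌋ -
        ⌊(((j + 1) / 2 : ℕ) : ℝ) * al⌋) := by exact_mod_cast e1
      generalize (j + 1) / 2 = K' at e2
      have a1 := Int.floor_le (((K' + m : ℕ) : ℝ) * al)
      have a2 := Int.lt_floor_add_one (((K' + m : ℕ) : ℝ) * al)
      have a3 := Int.floor_le ((K' : ℝ) * al)
      have a4 := Int.lt_floor_add_one ((K' : ℝ) * al)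
      have a5 : ((K' + m : ℕ) : ℝ) * al = K' * al + m * al := by push_cast; ring
      rw [abs_lt]; push_cast; constructor <;> linarith
    have par : ∀ e < 2, ∃ m < n + 2, ∀ k < n + 2, k % 2 = e →
        (Y k : ℤ) = Y m + ⌈((k : ℝ) - m) * (al / 2)⌉ := by
      intro e he
      obtain ⟨m, hm, hmin⟩ := Finset.exists_min_image
        ((Finset.range (n + 2)).filter (fun k => k % 2 = e))
        (fun k => (Y k : ℝ) - k * (al / 2)) ⟨e, by simp; omega⟩
      simp only [Finset.mem_filter, Finset.mem_range] at hm hmin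
      refine ⟨m, hm.1, fun k hk hke => ?_⟩
      have b1 := hmin k ⟨hk, hke⟩
      have b2 : |((Y k : ℝ) - k * (al / 2)) - (Y m - m * (al / 2))| < 1 := by
        rcases le_total k m with c | c
        · have := bal k ((m - k) / 2)
          rw [show k + 2 * ((m - k) / 2) = m by omega, abs_sub_comm] at this
          exact this
        · have := bal m ((k - m) / 2)
          rw [show m + 2 * ((k - m) / 2) = k by omega] at this
          exact this
      rw [abs_lt] at b2
      rw [← sub_eq_iff_eq_add', eq_comm, Int.ceil_eq_iff]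
      push_cast
      constructor <;> linarith [b2.2]
    obtain ⟨m0, h0, e0⟩ := par 0 (by norm_num)
    obtain ⟨m1, h1, e1⟩ := par 1 (by norm_num)
    have Yle : ∀ k, Y k ≤ k := fun k => List.count_le_length.trans (by simp [blk])
    have hG : ∀ k < n + 2, G ((m0, Y m0), (m1, Y m1)) k = Y k := by
      intro k hk
      unfold G
      split_ifs with c
      · exact (e0 k hk c).symm
      · exact (e1 k hk (by omega)).symm
    simp only [Finset.coe_image, Set.mem_image, Finset.mem_coe]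
    refine ⟨((m0, Y m0), (m1, Y m1)), ?_, ?_⟩
    · have := Yle m0
      have := Yle m1
      simp [hQ]; omega
    · unfold blk
      apply List.map_congr_left
      intro k hk
      have hk' := List.mem_range.1 hk
      rw [hG _ (by omega), hG _ (by omega)]
      simp only [hY]
      rw [cnt_succ]
      cases y (i + k) <;> simp
  refine (Set.ncard_le_ncard this (Finset.finite_toSet _)).trans ?_
  rw [Set.ncard_coe_finset]
  exact Finset.card_image_le.trans (by simp [hQ]; ring_nf; exact le_rfl)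

theorem result : ∃ x : ℕ → Bool,
    (∀ n, ∀ w ∈ L x n, ∃ R, ∀ i, ∃ j, i ≤ j ∧ j ≤ i + R ∧ w = blk x j n) ∧
    (¬ ∃ p, 0 < p ∧ ∃ K, ∀ k, K ≤ k → x (k + p) = x k) ∧
    (¬ ∀ n, (L x n).ncard = n + 1) ∧
    Tendsto (fun n : ℕ => Real.log ((LX (AbCl x) n).ncard) / n) atTop (𝓝 0) := by
  refine ⟨x, urec, aper, fun h => not_sturm (h 3), ?_⟩
  have lim : Tendsto (fun n : ℕ => 4 * (Real.log ((n : ℝ) + 2) ^ 1 / (1 * ((n : ℝ) + 2) + -2)))
      atTop (𝓝 (4 * 0)) :=
    ((Real.tendsto_pow_log_div_mul_add_atTop 1 (-2) 1 one_ne_zero).comp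
      (tendsto_atTop_add_const_right _ 2 tendsto_natCast_atTop_atTop)).const_mul 4
  rw [mul_zero] at lim
  refine squeeze_zero (fun n => div_nonneg (Real.log_natCast_nonneg _) (Nat.cast_nonneg _))
    (fun n => ?_) lim
  rw [pow_one, show 1 * ((n : ℝ) + 2) + -2 = n by ring, ← mul_div_assoc]
  apply div_le_div_of_nonneg_right _ (Nat.cast_nonneg _)
  have h : (((LX (AbCl x) n).ncard : ℕ) : ℝ) ≤ ((n : ℝ) + 2) ^ 4 := by exact_mod_cast card_le n
  have e : 4 * Real.log ((n : ℝ) + 2) = Real.log (((n : ℝ) + 2) ^ 4) := by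
    rw [Real.log_pow]; norm_num
  rw [e]
  rcases Nat.eq_zero_or_pos (LX (AbCl x) n).ncard with z | z
  · rw [z, Nat.cast_zero, Real.log_zero]
    exact Real.log_nonneg (one_le_pow₀ (by have : (0:ℝ) ≤ n := Nat.cast_nonneg n; linarith))
  · exact Real.log_le_log (by exact_mod_cast z) h

end Pool.Agent.Results.MP_1706f7_co.Zero
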